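import Pool.Agent.KNT.All

/-!
# An algebraic knot in `S⁷` which is a connected sum of two nontrivial knots

The isolated singularity `f = (x³ + y₁² + y₂² + y₃²)² - 16 y₁⁶ - 4 y₂⁶ - y₃⁶` of `ℂ⁴` has an
algebraic knot which is not prime.  All the definitions used in the statement are in
`Pool/Agent/KNT/Knots.lean`.
-/

set_option autoImplicit false

namespace Pool.Agent.Results.MP_60ecc5_gt.CompositeAlgebraicKnot

open Pool.Agent.KNT

/-- There is an isolated hypersurface singularity `f` in `ℂ⁴` (namely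
`f = (x³ + y₁² + y₂² + y₃²)² - 16 y₁⁶ - 4 y₂⁶ - y₃⁶`) whose algebraic knot in `S⁷` is (isotopic
to) a connected sum `K` of two nontrivial knots `K₁` and `K₂` of `S⁷`. -/
theorem result :
    ∃ f : E 3 → ℂ,
      (∀ z : E 3, f z = (z 0 ^ 3 + z 1 ^ 2 + z 2 ^ 2 + z 3 ^ 2) ^ 2 -
        (16 * z 1 ^ 6 + 4 * z 2 ^ 6 + z 3 ^ 6)) ∧
      IsIsolated f ∧
      ∃ K K₁ K₂ : E 3 → ℂ, IsKnot K ∧ IsKnot K₁ ∧ IsKnot K₂ ∧
        IsAlgebraicKnotOf f K ∧ IsConnSum K K₁ K₂ ∧ ¬ IsTrivial K₁ ∧ ¬ IsTrivial K₂ := by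
  obtain ⟨hi, K, K₁, K₂, hK, hK1, hK2, ha, hc, _, _, ht1, ht2⟩ := s_main
  exact ⟨f4, fun z => rfl, hi, K, K₁, K₂, hK, hK1, hK2, ha, hc, ht1, ht2⟩

end Pool.Agent.Results.MP_60ecc5_gt.CompositeAlgebraicKnot
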